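import Mathlib

namespace Pool.Agent.Results.MP_a37635_nt.NoTriple

open Complex

/-- `x` is preperiodic for `z ↦ z ^ 2 + z`: its forward orbit is finite. -/
def Preperiodic {K : Type} [Field K] (x : K) : Prop :=
  (Set.range fun n : ℕ => (fun z : K => z ^ 2 + z)^[n] x).Finite

def Esc (z : ℂ) : Prop := ∃ n : ℕ, 2 < ‖(fun z : ℂ => z ^ 2 + z)^[n] z‖

lemma grow (z : ℂ) (h : 2 < ‖z‖) : ‖z‖ < ‖z ^ 2 + z‖ := by
  have e : z ^ 2 + z = z * (z - -1) := by ring
  have := norm_sub_norm_le z (-1)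
  rw [norm_neg, norm_one] at this
  rw [e, norm_mul]
  nlinarith

lemma not_pre (z : ℂ) (h : Esc z) : ¬ Preperiodic z := by
  obtain ⟨n, hn⟩ := h
  intro hp
  have big : ∀ k, 2 < ‖(fun z : ℂ => z ^ 2 + z)^[k + n] z‖ := by
    intro k
    induction k with
    | zero => simpa using hn
    | succ k ih =>
      rw [Nat.succ_add, Function.iterate_succ_apply']
      exact ih.trans (grow _ ih)
  have sm : StrictMono fun k => ‖(fun z : ℂ => z ^ 2 + z)^[k + n] z‖ :=
    strictMono_nat_of_lt_succ fun k => by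
      rw [Nat.succ_add, Function.iterate_succ_apply']
      exact grow _ (big k)
  refine Set.infinite_of_injective_forall_mem
    (s := Set.range fun n : ℕ => (fun z : ℂ => z ^ 2 + z)^[n] z)
    (f := fun k => (fun z : ℂ => z ^ 2 + z)^[k + n] z) (fun k l e => sm.injective ?_)
    (fun k => Set.mem_range.2 ⟨k + n, rfl⟩) hp
  exact congrArg norm e

def S : ℤ := 1099511627776

def U : ℤ := 1048576

def sq : ℕ → ℤ → ℤ → ℤ
  | 0, _, g => g
  | k + 1, n, g => sq k n ((g + n / g) / 2 + 1)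

def step (e : ℤ → ℤ → ℤ → Bool) (x y r m : ℤ) : Bool :=
  decide ((2 * x + S) * (2 * x + S) + 2 * y * (2 * y) ≤ m * m) && decide (0 ≤ m) &&
    e ((x * x - y * y) / S + x) (2 * x * y / S + y) ((m * r + r * r) / S + 3)

def esc : ℕ → ℤ → ℤ → ℤ → Bool
  | 0, _, _, _ => false
  | n + 1, x, y, r => decide ((2 * S + r) * (2 * S + r) < x * x + y * y) || (decide (r ≤ S) &&
      step (esc n) x y r (sq 8 ((2 * x + S) * (2 * x + S) + 2 * y * (2 * y)) (4 * S)))

def ok (d : ℕ) (x y : ℤ) : Bool :=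
  decide (3 * (x + 2 * 2 ^ d * U) < S) || esc 40 x y (3 * 2 ^ d * U)

def chk : ℕ → ℤ → ℤ → Bool
  | 0, x, y => ok 0 x y
  | d + 1, x, y => ok (d + 1) x y ||
      (chk d (x - 2 * 2 ^ d * U) (y - 2 * 2 ^ d * U) && chk d (x + 2 * 2 ^ d * U) (y - 2 * 2 ^ d * U)
        && chk d (x - 2 * 2 ^ d * U) (y + 2 * 2 ^ d * U) &&
        chk d (x + 2 * 2 ^ d * U) (y + 2 * 2 ^ d * U))

lemma S_pos : (0 : ℝ) < S := by norm_num [S]

lemma fl (a : ℤ) : (S : ℝ) * (a / S : ℤ) ≤ a ∧ (a : ℝ) ≤ S * (a / S : ℤ) + S := by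
  have h1 : S * (a / S) ≤ a ∧ a ≤ S * (a / S) + S := by unfold S; omega
  exact ⟨by exact_mod_cast h1.1, by exact_mod_cast h1.2⟩

lemma nrm (a b m : ℝ) (hm : 0 ≤ m) (h : a * a + b * b ≤ m * m) : ‖(a : ℂ) + b * I‖ ≤ m := by
  rw [norm_add_mul_I]
  exact Real.sqrt_le_iff.2 ⟨hm, by nlinarith⟩

lemma esc_sound : ∀ (n : ℕ) (x y r : ℤ) (z : ℂ), esc n x y r = true →
    ‖(S : ℂ) * z - (x + y * I)‖ ≤ r → Esc z := by
  intro n
  induction n with
  | zero => intro x y r z h; simp [esc] at h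
  | succ n ih =>
    intro x y r z h hz
    have r0 : (0 : ℝ) ≤ r := (norm_nonneg _).trans hz
    have s0 := S_pos
    have nS : ‖(S : ℂ)‖ = S := by rw [norm_intCast, abs_of_pos s0]
    simp only [esc, step, Bool.or_eq_true, Bool.and_eq_true, decide_eq_true_eq] at h
    rcases h with h | ⟨-, ⟨h1, h2⟩, h3⟩
    · refine ⟨0, ?_⟩
      have h' : ((2 * S + r) * (2 * S + r) : ℝ) < x * x + y * y := by exact_mod_cast h
      have a1 : (2 * S + r : ℝ) < ‖((x : ℝ) : ℂ) + (y : ℝ) * I‖ := by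
        rw [norm_add_mul_I]
        exact Real.lt_sqrt_of_sq_lt (by nlinarith)
      have a2 := norm_sub_norm_le ((x : ℂ) + y * I) ((S : ℂ) * z)
      rw [norm_sub_rev, norm_mul, nS] at a2
      simp only [ofReal_intCast] at a1
      simp only [Function.iterate_zero, id]
      nlinarith
    · obtain ⟨m, hm⟩ : ∃ m, m = sq 8 ((2 * x + S) * (2 * x + S) + 2 * y * (2 * y)) (4 * S) :=
        ⟨_, rfl⟩
      rw [← hm] at h1 h2 h3
      obtain ⟨k, hk⟩ := ih _ _ _ (z ^ 2 + z) h3 (by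
        obtain ⟨p, hp⟩ : ∃ p, p = (x * x - y * y) / S := ⟨_, rfl⟩
        obtain ⟨q, hq⟩ : ∃ q, q = 2 * x * y / S := ⟨_, rfl⟩
        obtain ⟨t, ht⟩ : ∃ t, t = (m * r + r * r) / S := ⟨_, rfl⟩
        have f1 := fl (x * x - y * y)
        have f2 := fl (2 * x * y)
        have f3 := (fl (m * r + r * r)).2
        rw [← hp] at f1; rw [← hq] at f2; rw [← ht] at f3
        rw [← hp, ← hq, ← ht]
        push_cast at f1 f2 f3 ⊢
        obtain ⟨δ, hδ⟩ : ∃ δ, δ = (S : ℂ) * z - (x + y * I) := ⟨_, rfl⟩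
        rw [← hδ] at hz
        have b1 : ‖((2 * x + S : ℝ) : ℂ) + (2 * y : ℝ) * I‖ ≤ m :=
          nrm _ _ _ (by exact_mod_cast h2) (by exact_mod_cast h1)
        have b2 : ‖((x * x - y * y - S * p : ℝ) : ℂ) + (2 * x * y - S * q : ℝ) * I‖ ≤ 2 * S :=
          nrm _ _ _ (by linarith) (by nlinarith [f1.1, f1.2, f2.1, f2.2])
        have e : (S : ℂ) * ((S : ℂ) * (z ^ 2 + z) - (p + x + (q + y) * I)) =
            δ * (δ + (((2 * x + S : ℝ) : ℂ) + (2 * y : ℝ) * I)) +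
            (((x * x - y * y - S * p : ℝ) : ℂ) + (2 * x * y - S * q : ℝ) * I) := by
          rw [hδ]; push_cast
          linear_combination ((y : ℂ) ^ 2) * I_mul_I
        have b3 := norm_add_le δ (((2 * x + S : ℝ) : ℂ) + (2 * y : ℝ) * I)
        have b4 := norm_add_le (δ * (δ + (((2 * x + S : ℝ) : ℂ) + (2 * y : ℝ) * I)))
          (((x * x - y * y - S * p : ℝ) : ℂ) + (2 * x * y - S * q : ℝ) * I)
        rw [← e, norm_mul, norm_mul, nS] at b4
        have b5 : ‖δ‖ * ‖δ + (((2 * x + S : ℝ) : ℂ) + (2 * y : ℝ) * I)‖ ≤ r * (r + m) :=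
          mul_le_mul hz (by linarith) (norm_nonneg _) r0
        exact le_of_mul_le_mul_left (by linarith) s0)
      exact ⟨k + 1, hk⟩

lemma ok_sound (d : ℕ) (x y : ℤ) (z : ℂ) (h : ok d x y = true) (h0 : 1 / 3 ≤ z.re)
    (h1 : |S * z.re - x| ≤ 2 * 2 ^ d * U) (h2 : |S * z.im - y| ≤ 2 * 2 ^ d * U) : Esc z := by
  simp only [ok, Bool.or_eq_true, decide_eq_true_eq] at h
  have s0 := S_pos
  rw [abs_le] at h1 h2
  rcases h with h | h
  · have h' : (3 * (x + 2 * 2 ^ d * U) : ℝ) < S := by exact_mod_cast h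
    nlinarith [h1.2]
  · refine esc_sound _ _ _ _ z h ?_
    have e : (S : ℂ) * z - (x + y * I) = ((S * z.re - x : ℝ) : ℂ) + (S * z.im - y : ℝ) * I := by
      conv_lhs => rw [← re_add_im z]
      push_cast; ring
    rw [e]
    push_cast [-ofReal_sub]
    obtain ⟨g, hg⟩ : ∃ g : ℝ, g = 2 ^ d * U := ⟨_, rfl⟩
    simp only [mul_assoc, ← hg] at h1 h2 ⊢
    exact nrm _ _ _ (by linarith [h1.1, h1.2]) (by nlinarith [h1.1, h1.2, h2.1, h2.2])

lemma chk_sound (z : ℂ) (h0 : 1 / 3 ≤ z.re) : ∀ (d : ℕ) (x y : ℤ), chk d x y = true →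
    |S * z.re - x| ≤ 2 * 2 ^ d * U → |S * z.im - y| ≤ 2 * 2 ^ d * U → Esc z := by
  intro d
  induction d with
  | zero => intro x y h h1 h2; exact ok_sound 0 x y z h h0 h1 h2
  | succ d ih =>
    intro x y h h1 h2
    simp only [chk, Bool.or_eq_true, Bool.and_eq_true] at h
    rcases h with h | ⟨⟨⟨c1, c2⟩, c3⟩, c4⟩
    · exact ok_sound _ x y z h h0 h1 h2
    · rw [abs_le, pow_succ] at h1 h2
      rcases le_total (S * z.re) x with a | a <;> rcases le_total (S * z.im) y with b | b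
      · refine ih _ _ c1 ?_ ?_ <;> rw [abs_le] <;> push_cast <;> constructor <;>
          linarith [h1.1, h1.2, h2.1, h2.2]
      · refine ih _ _ c3 ?_ ?_ <;> rw [abs_le] <;> push_cast <;> constructor <;>
          linarith [h1.1, h1.2, h2.1, h2.2]
      · refine ih _ _ c2 ?_ ?_ <;> rw [abs_le] <;> push_cast <;> constructor <;>
          linarith [h1.1, h1.2, h2.1, h2.2]
      · refine ih _ _ c4 ?_ ?_ <;> rw [abs_le] <;> push_cast <;> constructor <;>
          linarith [h1.1, h1.2, h2.1, h2.2]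

lemma run : chk 20 0 0 = true := by decide +kernel

lemma half (z : ℂ) (h0 : 1 / 3 ≤ z.re) : Esc z := by
  by_cases h : 2 < ‖z‖
  · exact ⟨0, h⟩
  · have a := abs_le.1 ((abs_re_le_norm z).trans (not_lt.1 h))
    have b := abs_le.1 ((abs_im_le_norm z).trans (not_lt.1 h))
    refine chk_sound z h0 20 0 0 run ?_ ?_ <;> rw [abs_le] <;> norm_num [S, U] <;>
      constructor <;> linarith [a.1, a.2, b.1, b.2]

lemma emb (k : Type) [Field k] [Algebra k ℂ] : Nonempty (AlgebraicClosure k →+* ℂ) :=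
  ⟨(IsAlgClosed.lift : AlgebraicClosure k →ₐ[k] ℂ).toRingHom⟩

theorem result : ∀ a b c : AlgebraicClosure ℚ,
    Preperiodic a → Preperiodic b → Preperiodic c → a + b + c ≠ 1 := by
  intro a b c ha hb hc e
  obtain ⟨φ⟩ := emb ℚ
  have tr : ∀ x, Preperiodic x → (φ x).re < 1 / 3 := by
    intro x hx
    by_contra h
    refine not_pre _ (half _ (not_lt.1 h)) ((hx.image φ).subset ?_)
    rintro _ ⟨n, rfl⟩
    refine ⟨_, ⟨n, rfl⟩, ?_⟩
    exact Function.Semiconj.iterate_right (f := φ) (ga := fun z => z ^ 2 + z)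
      (gb := fun z => z ^ 2 + z) (fun z => by simp) n x
  have := congrArg (fun x => (φ x).re) e
  simp only [map_add, map_one, add_re, one_re] at this
  linarith [tr a ha, tr b hb, tr c hc]

end Pool.Agent.Results.MP_a37635_nt.NoTriple
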